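import Pool.Agent.HMT.Stmts

/-!
# Squad HMT, row COI: isomorphic graphs have isomorphic 2-cores
-/

namespace Pool.Agent.HMT.H82

theorem core_map {V W : Type} {G : SimpleGraph V} {H : SimpleGraph W} (e : G ≃g H) {v : V}
    (hv : v ∈ core G) : e v ∈ core H := by
  obtain ⟨S, hvS, hS⟩ := hv
  refine ⟨e '' S, ⟨v, hvS, rfl⟩, ?_⟩
  rintro _ ⟨w, hw, rfl⟩
  obtain ⟨a, ha, b, hb, hab, h1, h2⟩ := hS w hw
  exact ⟨e a, ⟨a, ha, rfl⟩, e b, ⟨b, hb, rfl⟩, fun h => hab (e.injective h),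
    e.map_rel_iff.2 h1, e.map_rel_iff.2 h2⟩

theorem coi : CoiStmt := by
  rintro V W G H ⟨e⟩
  have hiff : ∀ v, v ∈ core G ↔ e.toEquiv v ∈ core H := by
    intro v
    constructor
    · intro h
      exact core_map e h
    · intro h
      have h1 := core_map e.symm h
      have h2 : e.symm (e.toEquiv v) = v := e.toEquiv.symm_apply_apply v
      rwa [h2] at h1
  exact ⟨⟨e.toEquiv.subtypeEquiv hiff, fun {a b} => e.map_rel_iff⟩⟩

end Pool.Agent.HMT.H82
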